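import Mathlib

namespace Pool.Agent.Lib.MP_75c11f_co

/-- `L(k,k)`: integer sequences `0 ≤ x_1 ≤ x_2 ≤ ... ≤ x_k ≤ k`. -/
abbrev L (k : ℕ) : Type := {x : Fin k → ℕ // Monotone x ∧ ∀ i, x i ≤ k}

/-- `G_k`, the comparability graph of `L(k,k)` under the componentwise order: distinct `x`, `y`
are adjacent when `x ≤ y` componentwise or `y ≤ x` componentwise. -/
def G (k : ℕ) : SimpleGraph (L k) :=
  SimpleGraph.fromRel (fun x y => ∀ i, x.1 i ≤ y.1 i)

end Pool.Agent.Lib.MP_75c11f_co
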