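import Mathlib
import Pool.Agent.Lib.MP_75c11f_co.Defs

/-!
The weighted cover relation on `L(k,k)`.
-/

namespace Pool.Agent.Lib.MP_75c11f_co

open Finset

variable {k : ℕ}

theorem finite_L (k : ℕ) : Finite (L k) := by
  apply Finite.of_injective
    (fun x : L k => fun i : Fin k => (⟨x.1 i, Nat.lt_succ_of_le (x.2.2 i)⟩ : Fin (k + 1)))
  intro x y h
  apply Subtype.ext
  funext i
  have := congrFun h i
  simpa using this

noncomputable instance fintypeL (k : ℕ) : Fintype (L k) :=
  @Fintype.ofFinite _ (finite_L k)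

/-- extended sequence: `0, x_1, ..., x_k, k, k, ...` -/
def ext (x : Fin k → ℕ) (j : ℕ) : ℕ :=
  if j = 0 then 0 else if h : j - 1 < k then x ⟨j - 1, h⟩ else k

lemma ext_zero (x : Fin k → ℕ) : ext x 0 = 0 := by simp [ext]

lemma ext_succ (x : Fin k → ℕ) (i : Fin k) : ext x (i.1 + 1) = x i := by
  simp [ext, i.2]

lemma ext_succ' (x : Fin k → ℕ) (i : ℕ) (h : i < k) : ext x (i + 1) = x ⟨i, h⟩ :=
  ext_succ x ⟨i, h⟩

lemma ext_top (x : Fin k → ℕ) (j : ℕ) (h : k < j) : ext x j = k := by
  have h1 : j ≠ 0 := by omega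
  have h2 : ¬ (j - 1 < k) := by omega
  simp [ext, h1, h2]

lemma P_iff (x : Fin k → ℕ) :
    (Monotone x ∧ ∀ i, x i ≤ k) ↔ ∀ j, ext x j ≤ ext x (j + 1) := by
  constructor
  · rintro ⟨h1, h2⟩ j
    rcases j with _ | j
    · simp [ext_zero]
    · by_cases a : j + 1 < k
      · rw [ext_succ' x j (by omega), ext_succ' x (j + 1) a]
        apply h1
        simp [Fin.le_def]
      · rw [ext_top x (j + 1 + 1) (by omega)]
        by_cases b : j < k
        · rw [ext_succ' x j b]
          exact h2 _
        · rw [ext_top x (j + 1) (by omega)]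
  · intro h
    have hm : Monotone (ext x) := monotone_nat_of_le_succ h
    constructor
    · intro i j hij
      rw [← ext_succ x i, ← ext_succ x j]
      apply hm
      have : i.1 ≤ j.1 := hij
      omega
    · intro i
      rw [← ext_succ x i]
      have := hm (show i.1 + 1 ≤ k + 1 by omega)
      rwa [ext_top x (k + 1) (by omega)] at this

lemma ext_update (x : Fin k → ℕ) (i : Fin k) (v j : ℕ) :
    ext (Function.update x i v) j = if j = i.1 + 1 then v else ext x j := by
  rcases j with _ | j
  · simp [ext_zero]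
  · by_cases a : j < k
    · rw [ext_succ' _ j a, ext_succ' _ j a, Function.update_apply]
      simp [Fin.ext_iff]
    · rw [ext_top _ (j + 1) (by omega), ext_top _ (j + 1) (by omega)]
      have : j + 1 ≠ i.1 + 1 := by
        have := i.2
        omega
      simp only [this, if_false]

lemma L_mono (x : L k) (j : ℕ) : ext x.1 j ≤ ext x.1 (j + 1) := (P_iff x.1).mp x.2 j

lemma L_le (x : L k) (j : ℕ) : ext x.1 j ≤ k := by
  have hm : Monotone (ext x.1) := monotone_nat_of_le_succ (L_mono x)
  have := hm (show j ≤ j + k + 1 by omega)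
  rwa [ext_top x.1 (j + k + 1) (by omega)] at this

/-- raise coordinate `i` by one -/
def up (x : Fin k → ℕ) (i : Fin k) : Fin k → ℕ := Function.update x i (x i + 1)

lemma canUp (x : L k) (i : Fin k) :
    (Monotone (up x.1 i) ∧ ∀ j, up x.1 i j ≤ k) ↔ ext x.1 (i.1 + 1) < ext x.1 (i.1 + 2) := by
  rw [P_iff]
  simp only [up, ext_update]
  constructor
  · intro h
    have := h (i.1 + 1)
    simp only [if_true] at this
    rw [if_neg (by omega)] at this
    rw [ext_succ]
    exact this
  · intro h j
    rw [ext_succ] at h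
    have h1 := L_mono x j
    split_ifs with a b b
    · omega
    · rw [a]
      exact h
    · have : j = i.1 := by omega
      rw [this, ext_succ] at h1
      rw [this]
      omega
    · exact h1

lemma canDown (y : L k) (i : Fin k) (h : ext y.1 i.1 < ext y.1 (i.1 + 1)) :
    (Monotone (Function.update y.1 i (y.1 i - 1)) ∧
      ∀ j, Function.update y.1 i (y.1 i - 1) j ≤ k) := by
  rw [P_iff]
  simp only [ext_update]
  intro j
  rw [ext_succ] at h
  have h1 := L_mono y j
  split_ifs with a b b
  · omega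
  · rw [a, ext_succ] at h1
    rw [a]
    omega
  · have : j = i.1 := by omega
    rw [this]
    omega
  · exact h1

/-- the `sl_2` weight -/
def W (k j : ℕ) : ℝ := (j : ℝ) * (2 * k - j)

lemma W_nonneg (j : ℕ) (h : j ≤ 2 * k) : 0 ≤ W k j := by
  have : (j : ℝ) ≤ 2 * k := by exact_mod_cast h
  unfold W
  apply mul_nonneg (Nat.cast_nonneg _)
  linarith

lemma W_le (j : ℕ) : W k j ≤ (k : ℝ) ^ 2 := by
  unfold W
  nlinarith [sq_nonneg ((k : ℝ) - j)]

/-- weight of the cover relation -/
noncomputable def wt (x y : L k) : ℝ :=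
  ∑ i : Fin k, if y.1 = up x.1 i then W k (x.1 i + i.1 + 1) else 0

/-- rank -/
def rk (x : L k) : ℕ := ∑ i, x.1 i

lemma Wx_nonneg (x : L k) (i : Fin k) : 0 ≤ W k (x.1 i + i.1 + 1) := by
  apply W_nonneg
  have := x.2.2 i
  have := i.2
  omega

lemma wt_nonneg (x y : L k) : 0 ≤ wt x y := by
  apply Finset.sum_nonneg
  intro i _
  split_ifs
  · exact Wx_nonneg x i
  · exact le_rfl

lemma wt_ne (x y : L k) (h : wt x y ≠ 0) : ∃ i, y.1 = up x.1 i := by
  by_contra hc
  push Not at hc
  apply h
  apply Finset.sum_eq_zero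
  intro i _
  simp [hc i]

lemma up_inj (x : Fin k → ℕ) (i j : Fin k) (h : up x i = up x j) : i = j := by
  by_contra hne
  have := congrFun h i
  simp [up, Function.update_of_ne hne] at this

lemma wt_le (x y : L k) : wt x y ≤ (k : ℝ) ^ 2 := by
  by_cases h : wt x y = 0
  · rw [h]
    positivity
  · obtain ⟨i, hi⟩ := wt_ne x y h
    unfold wt
    rw [Finset.sum_eq_single i]
    · rw [if_pos hi]
      exact W_le _
    · intro j _ hj
      rw [if_neg]
      intro h2
      exact hj (up_inj _ _ _ (h2.symm.trans hi))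
    · simp

lemma sum_up (x : Fin k → ℕ) (i : Fin k) : ∑ j, up x i j = ∑ j, x j + 1 := by
  unfold up
  rw [Finset.sum_update_of_mem (Finset.mem_univ i),
    ← Finset.add_sum_erase univ x (Finset.mem_univ i), Finset.sdiff_singleton_eq_erase]
  ring

lemma le_up (x : Fin k → ℕ) (i : Fin k) : x ≤ up x i := by
  intro j
  unfold up
  rw [Function.update_apply]
  split_ifs with h
  · rw [h]
    exact Nat.le_succ _
  · exact le_rfl

lemma wt_rk (x y : L k) (h : wt x y ≠ 0) : rk y = rk x + 1 ∧ x ≤ y := by
  obtain ⟨i, hi⟩ := wt_ne x y h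
  constructor
  · unfold rk
    rw [hi, sum_up]
  · show x.1 ≤ y.1
    rw [hi]
    exact le_up _ _

lemma out_eq (x : L k) : ∑ y, wt x y =
    ∑ i ∈ range k, if ext x.1 (i + 1) < ext x.1 (i + 2) then W k (ext x.1 (i + 1) + i + 1)
      else 0 := by
  unfold wt
  rw [Finset.sum_comm, Finset.sum_range]
  apply Finset.sum_congr rfl
  intro i _
  by_cases h : ext x.1 (i.1 + 1) < ext x.1 (i.1 + 2)
  · rw [if_pos h, ext_succ]
    rw [Finset.sum_eq_single (⟨up x.1 i, (canUp x i).mpr h⟩ : L k)]
    · simp
    · intro y _ hy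
      rw [if_neg]
      intro h2
      exact hy (Subtype.ext h2)
    · simp
  · rw [if_neg h]
    apply Finset.sum_eq_zero
    intro y _
    rw [if_neg]
    intro h2
    apply h
    rw [← canUp x i, ← h2]
    exact y.2

lemma in_eq (y : L k) : ∑ x, wt x y =
    ∑ i ∈ range k, if ext y.1 i < ext y.1 (i + 1) then W k (ext y.1 (i + 1) + i) else 0 := by
  unfold wt
  rw [Finset.sum_comm, Finset.sum_range]
  apply Finset.sum_congr rfl
  intro i _
  by_cases h : ext y.1 i.1 < ext y.1 (i.1 + 1)
  · rw [if_pos h]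
    have h' := h
    rw [ext_succ] at h'
    rw [Finset.sum_eq_single (⟨Function.update y.1 i (y.1 i - 1), canDown y i h⟩ : L k)]
    · rw [if_pos]
      · rw [ext_succ]
        congr 1
        simp only [Function.update_self]
        omega
      · simp only [up, Function.update_self, Function.update_idem]
        rw [show y.1 i - 1 + 1 = y.1 i by omega]
        simp
    · intro x _ hx
      rw [if_neg]
      intro h2
      apply hx
      apply Subtype.ext
      simp only [h2, up, Function.update_self, Function.update_idem]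
      simp
    · simp
  · rw [if_neg h]
    apply Finset.sum_eq_zero
    intro x _
    rw [if_neg]
    intro h2
    apply h
    have h3 := L_mono x i.1
    rw [ext_succ] at h3
    rw [h2]
    simp only [up, ext_update]
    rw [if_neg (by omega)]
    simp only [if_true]
    omega

lemma div_eq (x : L k) : ∑ y, wt y x - ∑ y, wt x y =
    2 * (rk x : ℝ) + ∑ i ∈ range k, (2 * ((i : ℝ) + 1) - 2 * k - 1) := by
  rw [in_eq, out_eq]
  set F : ℕ → ℝ := fun j => if ext x.1 j = ext x.1 (j + 1) then W k (ext x.1 j + j) else 0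
    with hF
  have e1 : ∀ i, (if ext x.1 i < ext x.1 (i + 1) then W k (ext x.1 (i + 1) + i) else 0) =
      W k (ext x.1 (i + 1) + i) - F i := by
    intro i
    have := L_mono x i
    simp only [hF]
    split_ifs with a b b
    · omega
    · simp
    · rw [b]
      simp
    · omega
  have e2 : ∀ i, (if ext x.1 (i + 1) < ext x.1 (i + 2) then W k (ext x.1 (i + 1) + i + 1)
      else 0) = W k (ext x.1 (i + 1) + i + 1) - F (i + 1) := by
    intro i
    have := L_mono x (i + 1)
    simp only [hF]
    rw [show i + 2 = i + 1 + 1 from rfl]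
    split_ifs with a b b
    · omega
    · simp
    · rw [add_assoc]
      simp
    · omega
  have e3 : ∑ i ∈ range k, F i = ∑ i ∈ range k, F (i + 1) := by
    have a1 := Finset.sum_range_succ F k
    have a2 := Finset.sum_range_succ' F k
    have a3 : F 0 = 0 := by simp [hF, ext_zero, W]
    have a4 : F k = 0 := by
      simp only [hF]
      split_ifs with a
      · rw [a, ext_top _ _ (by omega)]
        unfold W
        push_cast
        ring
      · rfl
    linarith
  have e4 : (rk x : ℝ) = ∑ i ∈ range k, (ext x.1 (i + 1) : ℝ) := by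
    unfold rk
    rw [Finset.sum_range]
    push_cast
    apply Finset.sum_congr rfl
    intro i _
    rw [ext_succ]
  simp only [e1, e2, Finset.sum_sub_distrib]
  rw [e3, e4, Finset.mul_sum, ← Finset.sum_sub_distrib, ← Finset.sum_sub_distrib,
    ← Finset.sum_sub_distrib, ← Finset.sum_sub_distrib, ← Finset.sum_sub_distrib,
    ← Finset.sum_add_distrib]
  apply Finset.sum_congr rfl
  intro i _
  unfold W
  push_cast
  ring

lemma out_le (x : L k) : ∑ y, wt x y ≤ (k : ℝ) ^ 3 := by
  rw [out_eq]
  refine (Finset.sum_le_card_nsmul _ _ ((k : ℝ) ^ 2) ?_).trans ?_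
  · intro i _
    split_ifs
    · exact W_le _
    · positivity
  · simp only [card_range, nsmul_eq_mul]
    apply le_of_eq
    ring

lemma in_le (x : L k) : ∑ y, wt y x ≤ (k : ℝ) ^ 3 := by
  rw [in_eq]
  refine (Finset.sum_le_card_nsmul _ _ ((k : ℝ) ^ 2) ?_).trans ?_
  · intro i _
    split_ifs
    · exact W_le _
    · positivity
  · simp only [card_range, nsmul_eq_mul]
    apply le_of_eq
    ring

lemma two_between (R T : L k) :
    (univ.filter (fun R' => wt R R' ≠ 0 ∧ wt R' T ≠ 0)).card ≤ 2 := by
  rcases (univ.filter (fun R' => wt R R' ≠ 0 ∧ wt R' T ≠ 0)).eq_empty_or_nonempty with h | h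
  · rw [h]
    simp
  · obtain ⟨R0, h0⟩ := h
    have h1 := (Finset.mem_filter.mp h0).2
    have h2 := wt_rk _ _ h1.1
    have h3 := wt_rk _ _ h1.2
    have hle : R.1 ≤ T.1 := h2.2.trans h3.2
    have hrk : rk T = rk R + 2 := by omega
    have hc : (univ.filter (fun i : Fin k => R.1 i < T.1 i)).card ≤ 2 := by
      have : ∑ i, (R.1 i + if R.1 i < T.1 i then 1 else 0) ≤ ∑ i, T.1 i := by
        apply Finset.sum_le_sum
        intro i _
        have := hle i
        split_ifs <;> omega
      rw [Finset.sum_add_distrib, ← Finset.card_filter] at this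
      unfold rk at hrk
      omega
    refine le_trans ?_ ((Finset.card_image_le (f := up R.1)).trans hc)
    apply Finset.card_le_card_of_injOn (fun y => y.1)
    · intro y hy
      have hy1 := (Finset.mem_filter.mp hy).2
      obtain ⟨i, hi⟩ := wt_ne _ _ hy1.1
      have hy2 : y.1 ≤ T.1 := (wt_rk _ _ hy1.2).2
      apply Finset.mem_coe.mpr
      apply Finset.mem_image.mpr
      refine ⟨i, Finset.mem_filter.mpr ⟨Finset.mem_univ _, ?_⟩, hi.symm⟩
      have := hy2 i
      rw [hi] at this
      simp only [up, Function.update_self] at this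
      omega
    · intro a _ b _ h
      exact Subtype.ext h

/-- number of ascents in the middle range -/
def asc (r : ℕ) (x : L k) : ℕ :=
  ((Ico (2 * r) (6 * r)).filter (fun i => ext x.1 (i + 1) < ext x.1 (i + 2))).card

lemma out_ge (r : ℕ) (hr : 8 * r ≤ k) (x : L k) :
    4 * (r : ℝ) ^ 2 * asc r x ≤ ∑ y, wt x y := by
  rw [out_eq, ← Finset.sum_filter]
  have hsub : (Ico (2 * r) (6 * r)).filter (fun i => ext x.1 (i + 1) < ext x.1 (i + 2)) ⊆
      (range k).filter (fun i => ext x.1 (i + 1) < ext x.1 (i + 2)) := by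
    apply Finset.filter_subset_filter
    intro i hi
    have := Finset.mem_Ico.mp hi
    apply Finset.mem_range.mpr
    omega
  refine le_trans ?_ (Finset.sum_le_sum_of_subset_of_nonneg hsub ?_)
  · rw [mul_comm, ← nsmul_eq_mul]
    apply Finset.card_nsmul_le_sum
    intro i hi
    have h1 := Finset.mem_Ico.mp (Finset.mem_filter.mp hi).1
    have h2 := L_le x (i + 1)
    unfold W
    have a1 : (2 * r : ℝ) ≤ ((ext x.1 (i + 1) + i + 1 : ℕ) : ℝ) := by
      exact_mod_cast (show 2 * r ≤ ext x.1 (i + 1) + i + 1 by omega)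
    have a2 : (2 * r : ℝ) + ((ext x.1 (i + 1) + i + 1 : ℕ) : ℝ) ≤ 2 * k := by
      exact_mod_cast (show 2 * r + (ext x.1 (i + 1) + i + 1) ≤ 2 * k by omega)
    have a3 : (0 : ℝ) ≤ 2 * r := by positivity
    calc 4 * (r : ℝ) ^ 2 = (2 * r) * (2 * r) := by ring
      _ ≤ _ := mul_le_mul a1 (by linarith) a3 (a3.trans a1)
  · intro i hi _
    apply W_nonneg
    have h1 := Finset.mem_range.mp (Finset.mem_filter.mp hi).1
    have h2 := L_le x (i + 1)
    omega

lemma asc_le (r : ℕ) (x y : L k) (h : wt x y ≠ 0) : asc r y ≤ asc r x + 1 := by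
  obtain ⟨i, hi⟩ := wt_ne x y h
  unfold asc
  refine le_trans (Finset.card_le_card ?_) (Finset.card_insert_le (i.1 - 1) _)
  intro j hj
  have h1 := Finset.mem_filter.mp hj
  by_cases a : j = i.1 - 1
  · rw [a]
    exact Finset.mem_insert_self _ _
  · apply Finset.mem_insert_of_mem
    refine Finset.mem_filter.mpr ⟨h1.1, ?_⟩
    have h2 := h1.2
    rw [hi] at h2
    simp only [up, ext_update] at h2
    rw [if_neg (show ¬ (j + 2 = i.1 + 1) by omega)] at h2
    split_ifs at h2 with b
    · rw [b, ext_succ]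
      omega
    · exact h2

end Pool.Agent.Lib.MP_75c11f_co
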