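import Mathlib
import Pool.Agent.Lib.MP_75c11f_co.Moves

/-!
Counting: `|L(k,k)| ≤ C(2k,k)` and few elements of `L(k,k)` have few ascents.
-/

namespace Pool.Agent.Lib.MP_75c11f_co

open Finset

variable {k : ℕ}

lemma strictMono_shift (x : L k) : StrictMono (fun i : Fin k => x.1 i + i.1) := by
  intro i j hij
  have h1 := x.2.1 hij.le
  have h2 : i.1 < j.1 := hij
  show x.1 i + i.1 < x.1 j + j.1
  omega

lemma card_L_le (k : ℕ) : Fintype.card (L k) ≤ (2 * k).choose k := by
  have h : (univ : Finset (L k)).card ≤ ((range (2 * k)).powersetCard k).card := by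
    apply Finset.card_le_card_of_injOn (fun x => univ.image (fun i : Fin k => x.1 i + i.1))
    · intro x _
      apply Finset.mem_coe.mpr
      apply Finset.mem_powersetCard.mpr
      constructor
      · intro a ha
        obtain ⟨i, _, hi⟩ := Finset.mem_image.mp ha
        have h1 := x.2.2 i
        have h2 := i.2
        apply Finset.mem_range.mpr
        omega
      · rw [Finset.card_image_of_injective _ (strictMono_shift x).injective]
        simp
    · intro x _ y _ hxy
      have h1 : Set.range (fun i : Fin k => x.1 i + i.1) =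
          Set.range (fun i : Fin k => y.1 i + i.1) := by
        have := congrArg (fun s : Finset ℕ => (s : Set ℕ)) hxy
        simpa using this
      have h2 := ((strictMono_shift x).range_inj (strictMono_shift y)).mp h1
      apply Subtype.ext
      funext i
      have := congrFun h2 i
      simpa using this
  simpa using h

/-- gaps -/
def gap (x : L k) (j : Fin k) : ℕ := ext x.1 (j.1 + 1) - ext x.1 j.1

lemma sum_gap (x : L k) (n : ℕ) :
    ∑ j ∈ range n, (ext x.1 (j + 1) - ext x.1 j) = ext x.1 n := by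
  induction n with
  | zero => simp [ext_zero]
  | succ n ih =>
    rw [Finset.sum_range_succ, ih]
    have := L_mono x n
    omega

lemma gap_inj : Function.Injective (gap : L k → Fin k → ℕ) := by
  intro x y h
  have key : ∀ n, n ≤ k → ext x.1 n = ext y.1 n := by
    intro n hn
    rw [← sum_gap x n, ← sum_gap y n]
    apply Finset.sum_congr rfl
    intro j hj
    have := Finset.mem_range.mp hj
    exact congrFun h ⟨j, by omega⟩
  apply Subtype.ext
  funext i
  rw [← ext_succ x.1 i, ← ext_succ y.1 i]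
  exact key _ i.2

/-- weight used in the generating function bound -/
noncomputable def gw (r j v : ℕ) : ℝ :=
  (1 / 2 : ℝ) ^ v * (if (2 * r + 1 ≤ j ∧ j < 6 * r + 1) ∧ 0 < v then 1 / 2 else 1)

lemma gw_nonneg (r j v : ℕ) : 0 ≤ gw r j v := by
  unfold gw
  split_ifs <;> positivity

lemma geom_le (n : ℕ) : ∑ v ∈ range n, (1 / 2 : ℝ) ^ (v + 1) ≤ 1 := by
  have : ∀ n : ℕ, ∑ v ∈ range n, (1 / 2 : ℝ) ^ (v + 1) = 1 - (1 / 2) ^ n := by
    intro n
    induction n with
    | zero => simp
    | succ n ih =>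
      rw [Finset.sum_range_succ, ih]
      ring
  rw [this]
  have : (0 : ℝ) ≤ (1 / 2) ^ n := by positivity
  linarith

lemma sum_gw (r j n : ℕ) : ∑ v ∈ range (n + 1), gw r j v ≤
    2 * (if 2 * r + 1 ≤ j ∧ j < 6 * r + 1 then 3 / 4 else 1) := by
  rw [Finset.sum_range_succ']
  have h := geom_le n
  by_cases a : 2 * r + 1 ≤ j ∧ j < 6 * r + 1
  · have e : ∀ v, gw r j (v + 1) = (1 / 2 : ℝ) ^ (v + 1) * (1 / 2) := by
      intro v
      unfold gw
      rw [if_pos ⟨a, by omega⟩]
    have e0 : gw r j 0 = 1 := by simp [gw]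
    simp only [e, e0]
    rw [if_pos a, ← Finset.sum_mul]
    linarith
  · have e : ∀ v, gw r j (v + 1) = (1 / 2 : ℝ) ^ (v + 1) := by
      intro v
      unfold gw
      rw [if_neg (fun h => a h.1), mul_one]
    have e0 : gw r j 0 = 1 := by simp [gw]
    simp only [e, e0]
    rw [if_neg a]
    linarith

lemma card_mid (r : ℕ) (hr : 8 * r ≤ k) (hr1 : 1 ≤ r) (q : ℕ → Prop) [DecidablePred q] :
    ((range k).filter (fun j => (2 * r + 1 ≤ j ∧ j < 6 * r + 1) ∧ q j)).card =
      ((Ico (2 * r) (6 * r)).filter (fun i => q (i + 1))).card := by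
  symm
  apply Finset.card_bij (fun i _ => i + 1)
  · intro i hi
    have h1 := Finset.mem_filter.mp hi
    have h2 := Finset.mem_Ico.mp h1.1
    refine Finset.mem_filter.mpr ⟨Finset.mem_range.mpr (by omega), ⟨by omega, by omega⟩, h1.2⟩
  · intro a _ b _ h
    omega
  · intro j hj
    have h1 := Finset.mem_filter.mp hj
    have h2 := h1.2.1
    refine ⟨j - 1, Finset.mem_filter.mpr ⟨Finset.mem_Ico.mpr ⟨by omega, by omega⟩, ?_⟩, by omega⟩
    rw [show j - 1 + 1 = j by omega]
    exact h1.2.2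

lemma prod_gw_ge (r : ℕ) (hr : 8 * r ≤ k) (hr1 : 1 ≤ r) (x : L k) (hx : asc r x < r) :
    (1 / 2 : ℝ) ^ k * (1 / 2) ^ r ≤ ∏ j : Fin k, gw r j.1 (gap x j) := by
  have e1 : ∏ j : Fin k, gw r j.1 (gap x j) =
      ∏ j ∈ range k, gw r j (ext x.1 (j + 1) - ext x.1 j) := by
    rw [Finset.prod_range]
    rfl
  rw [e1]
  unfold gw
  rw [Finset.prod_mul_distrib, Finset.prod_pow_eq_pow_sum, sum_gap, Finset.prod_ite,
    Finset.prod_const, Finset.prod_const_one, mul_one,
    card_mid r hr hr1 (fun j => 0 < ext x.1 (j + 1) - ext x.1 j)]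
  have e2 : ((Ico (2 * r) (6 * r)).filter
      (fun i => 0 < ext x.1 (i + 1 + 1) - ext x.1 (i + 1))).card = asc r x := by
    unfold asc
    congr 1
    apply Finset.filter_congr
    intro i _
    rw [show i + 2 = i + 1 + 1 from rfl]
    omega
  rw [e2]
  apply mul_le_mul
  · exact pow_le_pow_of_le_one (by norm_num) (by norm_num) (L_le x k)
  · exact pow_le_pow_of_le_one (by norm_num) (by norm_num) hx.le
  · positivity
  · positivity

lemma bad_count (r : ℕ) (hr : 8 * r ≤ k) (hr1 : 1 ≤ r) :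
    ((univ.filter (fun x : L k => asc r x < r)).card : ℝ) ≤ 4 ^ k * (81 / 128) ^ r := by
  set S := univ.filter (fun x : L k => asc r x < r) with hS
  have h1 : (S.card : ℝ) * ((1 / 2 : ℝ) ^ k * (1 / 2) ^ r) ≤
      ∑ x ∈ S, ∏ j : Fin k, gw r j.1 (gap x j) := by
    rw [← nsmul_eq_mul]
    apply Finset.card_nsmul_le_sum
    intro x hx
    exact prod_gw_ge r hr hr1 x (Finset.mem_filter.mp hx).2
  have h2 : ∑ x ∈ S, ∏ j : Fin k, gw r j.1 (gap x j) =
      ∑ g ∈ S.image gap, ∏ j : Fin k, gw r j.1 (g j) := by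
    rw [Finset.sum_image (fun a _ b _ h => gap_inj h)]
  have h3 : ∑ g ∈ S.image gap, ∏ j : Fin k, gw r j.1 (g j) ≤
      ∑ g ∈ Fintype.piFinset (fun _ : Fin k => range (k + 1)), ∏ j : Fin k, gw r j.1 (g j) := by
    apply Finset.sum_le_sum_of_subset_of_nonneg
    · intro g hg
      obtain ⟨x, _, hx⟩ := Finset.mem_image.mp hg
      rw [← hx]
      apply Fintype.mem_piFinset.mpr
      intro j
      have := L_le x (j.1 + 1)
      apply Finset.mem_range.mpr
      unfold gap
      omega
    · intro g _ _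
      exact Finset.prod_nonneg (fun j _ => gw_nonneg _ _ _)
  have h4 : ∑ g ∈ Fintype.piFinset (fun _ : Fin k => range (k + 1)),
      ∏ j : Fin k, gw r j.1 (g j) = ∏ j : Fin k, ∑ v ∈ range (k + 1), gw r j.1 v := by
    rw [Finset.prod_univ_sum]
  have h5 : ∏ j : Fin k, ∑ v ∈ range (k + 1), gw r j.1 v ≤
      ∏ j : Fin k, (2 * (if 2 * r + 1 ≤ j.1 ∧ j.1 < 6 * r + 1 then 3 / 4 else 1) : ℝ) := by
    apply Finset.prod_le_prod
    · intro j _
      exact Finset.sum_nonneg (fun v _ => gw_nonneg _ _ _)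
    · intro j _
      exact sum_gw r j.1 k
  have h6 : ∏ j : Fin k, (2 * (if 2 * r + 1 ≤ j.1 ∧ j.1 < 6 * r + 1 then 3 / 4 else 1) : ℝ) =
      2 ^ k * (3 / 4) ^ (4 * r) := by
    rw [← Finset.prod_range
      (fun j => (2 * (if 2 * r + 1 ≤ j ∧ j < 6 * r + 1 then 3 / 4 else 1) : ℝ)),
      Finset.prod_mul_distrib, Finset.prod_const, Finset.card_range, Finset.prod_ite,
      Finset.prod_const, Finset.prod_const_one, mul_one]
    congr 2
    have := card_mid r hr hr1 (fun _ => True)
    simp only [and_true, Finset.filter_true, Nat.card_Ico] at this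
    rw [this]
    omega
  have h7 : (S.card : ℝ) * ((1 / 2 : ℝ) ^ k * (1 / 2) ^ r) ≤ 2 ^ k * (3 / 4) ^ (4 * r) := by
    linarith
  have h8 : (4 : ℝ) ^ k * (81 / 128) ^ r * ((1 / 2 : ℝ) ^ k * (1 / 2) ^ r) =
      2 ^ k * (3 / 4) ^ (4 * r) := by
    rw [pow_mul]
    have a1 : (4 : ℝ) ^ k * (1 / 2) ^ k = 2 ^ k := by
      rw [← mul_pow]
      norm_num
    have a2 : (81 / 128 : ℝ) ^ r * (1 / 2) ^ r = ((3 / 4) ^ 4) ^ r := by
      rw [← mul_pow]
      norm_num
    rw [← a1, ← a2]
    ring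
  rw [← h8] at h7
  exact le_of_mul_le_mul_right h7 (by positivity)

end Pool.Agent.Lib.MP_75c11f_co
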