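import Mathlib

/-!
An abstract supersaturation lemma for graded posets carrying a flow.
-/

namespace Pool.Agent.Lib.MP_75c11f_co

open Finset

section Abstract

variable {V : Type} [Fintype V] [DecidableEq V]

/-- mass arriving after `n` rounds that has already visited `U` -/
noncomputable def arr (p : V → V → ℝ) (m : V → ℝ) (U : Finset V) : ℕ → V → ℝ
  | 0 => fun _ => 0
  | (n + 1) => fun T => ∑ S, (if S ∈ U then m S else arr p m U n S) * p S T

theorem exists_res (ρ : V → ℕ) (p : V → V → ℝ) (m : V → ℝ) (U : Finset V)
    (hpρ : ∀ S T, p S T ≠ 0 → ρ T = ρ S + 1) :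
    ∃ r : V → ℝ, ∀ T, r T = ∑ S, (if S ∈ U then m S else r S) * p S T := by
  refine ⟨fun T => arr p m U (ρ T) T, fun T => ?_⟩
  show arr p m U (ρ T) T = ∑ S, (if S ∈ U then m S else arr p m U (ρ S) S) * p S T
  rcases h : ρ T with _ | n
  · simp only [arr]
    symm
    apply Finset.sum_eq_zero
    intro S _
    have : p S T = 0 := by
      by_contra hne
      have := hpρ S T hne
      omega
    simp [this]
  · simp only [arr]
    apply Finset.sum_congr rfl
    intro S _
    by_cases hp : p S T = 0
    · simp [hp]
    · have := hpρ S T hp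
      have h2 : ρ S = n := by omega
      rw [h2]

theorem flow_bound [PartialOrder V] [DecidableLE V] [DecidableLT V]
    (ρ : V → ℕ) (p : V → V → ℝ) (m src : V → ℝ)
    (hp0 : ∀ S T, 0 ≤ p S T) (hp1 : ∀ S, ∑ T, p S T ≤ 1)
    (hpρ : ∀ S T, p S T ≠ 0 → ρ T = ρ S + 1 ∧ S ≤ T)
    (hm0 : ∀ S, 0 ≤ m S) (hsrc0 : ∀ S, 0 ≤ src S)
    (hm : ∀ T, m T = src T + ∑ S, m S * p S T)
    (U : Finset V) (hpar : ∀ S ∈ U, ∀ T ∈ U, ρ T ≠ ρ S + 1)
    (κ B : ℝ) (hκ0 : 0 ≤ κ) (hB : ∀ S, m S ≤ B)
    (hκ : ∀ T ∈ U, ∀ R, ∑ R', p R R' * p R' T ≤ κ) :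
    ∑ T ∈ U, m T ≤ ∑ T, src T +
      κ * B * (((U ×ˢ U).filter (fun q => q.1 < q.2)).card : ℝ) := by
  obtain ⟨r, hr⟩ := exists_res ρ p m U (fun S T h => (hpρ S T h).1)
  set r' : V → ℝ := fun S => if S ∈ U then m S else r S with hr'
  have hr2 : ∀ T, r T = ∑ S, r' S * p S T := hr
  -- bounds on r
  have hbd : ∀ n, ∀ T, ρ T = n → 0 ≤ r T ∧ r T ≤ m T := by
    intro n
    induction n using Nat.strong_induction_on with
    | _ n ih =>
      intro T hT
      have key : ∀ S, 0 ≤ r' S * p S T ∧ r' S * p S T ≤ m S * p S T := by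
        intro S
        by_cases hp : p S T = 0
        · simp [hp]
        · have h1 := (hpρ S T hp).1
          have h2 := ih (ρ S) (by omega) S rfl
          have h3 : 0 ≤ r' S ∧ r' S ≤ m S := by
            simp only [hr']
            split_ifs
            · exact ⟨hm0 S, le_rfl⟩
            · exact h2
          exact ⟨mul_nonneg h3.1 (hp0 S T), mul_le_mul_of_nonneg_right h3.2 (hp0 S T)⟩
      constructor
      · rw [hr2 T]
        exact Finset.sum_nonneg (fun S _ => (key S).1)
      · rw [hr2 T, hm T]
        have : ∑ S, r' S * p S T ≤ ∑ S, m S * p S T := Finset.sum_le_sum (fun S _ => (key S).2)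
        linarith [hsrc0 T]
  have hr0 : ∀ T, 0 ≤ r T := fun T => (hbd _ T rfl).1
  have hrm : ∀ T, r T ≤ m T := fun T => (hbd _ T rfl).2
  have hr'0 : ∀ S, 0 ≤ r' S := by
    intro S
    simp only [hr']
    split_ifs
    · exact hm0 S
    · exact hr0 S
  have hr'm : ∀ S, r' S ≤ m S := by
    intro S
    simp only [hr']
    split_ifs
    · exact le_rfl
    · exact hrm S
  -- first visits
  have hfirst : ∑ T ∈ U, (m T - r T) ≤ ∑ T, src T := by
    have e1 : ∑ T, (m T - r T) = ∑ T, src T + ∑ S, (m S - r' S) * ∑ T, p S T := by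
      have : ∀ T, m T - r T = src T + ∑ S, (m S - r' S) * p S T := by
        intro T
        rw [hr2 T]
        conv_lhs => rw [hm T]
        simp only [sub_mul, Finset.sum_sub_distrib]
        ring
      simp only [this, Finset.sum_add_distrib, Finset.mul_sum]
      rw [Finset.sum_comm]
    have e2 : ∑ S, (m S - r' S) * ∑ T, p S T ≤ ∑ S, (m S - r' S) := by
      apply Finset.sum_le_sum
      intro S _
      have := mul_le_mul_of_nonneg_left (hp1 S) (sub_nonneg.mpr (hr'm S))
      linarith
    have e3 : ∑ S, (m S - r S) = ∑ S ∈ U, (m S - r S) + ∑ S, (m S - r' S) := by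
      have : ∀ S, m S - r S = (if S ∈ U then m S - r S else 0) + (m S - r' S) := by
        intro S
        simp only [hr']
        split_ifs <;> ring
      rw [Finset.sum_congr rfl (fun S _ => this S), Finset.sum_add_distrib]
      congr 1
      rw [Finset.sum_ite_mem]
      simp
    linarith
  -- level bound
  have hlevel : ∀ T : V, ∀ l : ℕ,
      ∑ R, (if R ≤ T ∧ ρ R = l then r' R else 0) ≤
        ∑ S, (if S ∈ U ∧ S ≤ T ∧ ρ S ≤ l then m S else 0) := by
    intro T l
    have step : ∀ l, ∑ R, (if R ≤ T ∧ ρ R = l then r' R else 0) ≤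
        ∑ R, (if R ∈ U ∧ R ≤ T ∧ ρ R = l then m R else 0) +
          ∑ S, (if S ≤ T ∧ ρ S + 1 = l then r' S else 0) := by
      intro l
      have a1 : ∑ R, (if R ≤ T ∧ ρ R = l then r' R else 0) ≤
          ∑ R, (if R ∈ U ∧ R ≤ T ∧ ρ R = l then m R else 0) +
            ∑ R, (if R ≤ T ∧ ρ R = l then r R else 0) := by
        rw [← Finset.sum_add_distrib]
        apply Finset.sum_le_sum
        intro R _
        have := hr0 R
        simp only [hr']
        by_cases h1 : R ∈ U <;> by_cases h2 : R ≤ T ∧ ρ R = l <;> simp [h1, h2, this]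
      have a2 : ∑ R, (if R ≤ T ∧ ρ R = l then r R else 0) ≤
          ∑ S, (if S ≤ T ∧ ρ S + 1 = l then r' S else 0) := by
        have b1 : ∀ R, (if R ≤ T ∧ ρ R = l then r R else 0) ≤
            ∑ S, (if S ≤ T ∧ ρ S + 1 = l then r' S else 0) * p S R := by
          intro R
          split_ifs with h
          · rw [hr2 R]
            apply Finset.sum_le_sum
            intro S _
            by_cases hp : p S R = 0
            · simp [hp]
            · have h1 := hpρ S R hp
              have h2 : S ≤ T ∧ ρ S + 1 = l := ⟨h1.2.trans h.1, by omega⟩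
              simp [h2]
          · apply Finset.sum_nonneg
            intro S _
            apply mul_nonneg _ (hp0 S R)
            split_ifs
            · exact hr'0 S
            · exact le_rfl
        calc ∑ R, (if R ≤ T ∧ ρ R = l then r R else 0)
            ≤ ∑ R, ∑ S, (if S ≤ T ∧ ρ S + 1 = l then r' S else 0) * p S R :=
              Finset.sum_le_sum (fun R _ => b1 R)
          _ = ∑ S, (if S ≤ T ∧ ρ S + 1 = l then r' S else 0) * ∑ R, p S R := by
              rw [Finset.sum_comm]
              simp only [Finset.mul_sum]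
          _ ≤ ∑ S, (if S ≤ T ∧ ρ S + 1 = l then r' S else 0) := by
              apply Finset.sum_le_sum
              intro S _
              have h0 : 0 ≤ (if S ≤ T ∧ ρ S + 1 = l then r' S else 0) := by
                split_ifs
                · exact hr'0 S
                · exact le_rfl
              have := mul_le_mul_of_nonneg_left (hp1 S) h0
              linarith
      linarith
    induction l with
    | zero =>
      have := step 0
      simp only [Nat.add_eq_zero_iff, one_ne_zero, and_false, if_false, Finset.sum_const_zero,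
        add_zero] at this
      simpa using this
    | succ l ih =>
      have h1 := step (l + 1)
      simp only [add_left_inj] at h1
      have h2 : ∑ S, (if S ∈ U ∧ S ≤ T ∧ ρ S ≤ l + 1 then m S else 0) =
          ∑ R, (if R ∈ U ∧ R ≤ T ∧ ρ R = l + 1 then m R else 0) +
            ∑ S, (if S ∈ U ∧ S ≤ T ∧ ρ S ≤ l then m S else 0) := by
        rw [← Finset.sum_add_distrib]
        apply Finset.sum_congr rfl
        intro S _
        by_cases c1 : S ∈ U
        · by_cases c2 : S ≤ T
          · rcases lt_trichotomy (ρ S) (l + 1) with c3 | c3 | c3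
            · have d1 : ρ S ≤ l + 1 := by omega
              have d2 : ρ S ≠ l + 1 := by omega
              have d3 : ρ S ≤ l := by omega
              simp [c1, c2, d1, d2, d3]
            · simp [c1, c2, c3]
            · have d1 : ¬ ρ S ≤ l + 1 := by omega
              have d2 : ρ S ≠ l + 1 := by omega
              have d3 : ¬ ρ S ≤ l := by omega
              simp [d1, d2, d3]
          · simp [c2]
        · simp [c1]
      linarith
  -- bound of the residual at a point of U
  have hres : ∀ T ∈ U, r T ≤ κ * B * ((U.filter (fun S => S < T)).card : ℝ) := by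
    intro T hT
    have hB0 : 0 ≤ B := (hm0 T).trans (hB T)
    have e1 : r T = ∑ R, r' R * ∑ R', p R R' * p R' T := by
      rw [hr2 T]
      have : ∀ R', r' R' * p R' T = ∑ R, r' R * (p R R' * p R' T) := by
        intro R'
        by_cases hp : p R' T = 0
        · simp [hp]
        · have h1 := (hpρ R' T hp).1
          have h2 : R' ∉ U := fun h => hpar R' h T hT h1
          have h3 : r' R' = r R' := by simp [hr', h2]
          rw [h3, hr2 R', Finset.sum_mul]
          apply Finset.sum_congr rfl
          intro R _
          ring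
      simp only [this, Finset.mul_sum]
      rw [Finset.sum_comm]
    have e2 : ∀ R, r' R * ∑ R', p R R' * p R' T ≤
        κ * (if R ≤ T ∧ ρ R + 2 = ρ T then r' R else 0) := by
      intro R
      split_ifs with h
      · rw [mul_comm κ]
        exact mul_le_mul_of_nonneg_left (hκ T hT R) (hr'0 R)
      · have : ∑ R', p R R' * p R' T = 0 := by
          apply Finset.sum_eq_zero
          intro R' _
          by_contra hne
          have h1 := hpρ R R' (left_ne_zero_of_mul hne)
          have h2 := hpρ R' T (right_ne_zero_of_mul hne)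
          exact h ⟨h1.2.trans h2.2, by omega⟩
        simp [this]
    have e3 : ∑ R, (if R ≤ T ∧ ρ R + 2 = ρ T then r' R else 0) ≤
        B * ((U.filter (fun S => S < T)).card : ℝ) := by
      by_cases h2 : ρ T < 2
      · have : ∀ R, ¬ (R ≤ T ∧ ρ R + 2 = ρ T) := by
          intro R h
          omega
        rw [Finset.sum_eq_zero (fun R _ => if_neg (this R))]
        exact mul_nonneg hB0 (Nat.cast_nonneg _)
      · have f1 := hlevel T (ρ T - 2)
        have f2 : ∀ R, (R ≤ T ∧ ρ R + 2 = ρ T) ↔ (R ≤ T ∧ ρ R = ρ T - 2) := by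
          intro R
          constructor
          · rintro ⟨a, b⟩
            exact ⟨a, by omega⟩
          · rintro ⟨a, b⟩
            exact ⟨a, by omega⟩
        rw [Finset.sum_congr rfl (fun R _ => if_congr (f2 R) rfl rfl)]
        refine f1.trans ?_
        have f3 : B * ((U.filter (fun S => S < T)).card : ℝ) =
            ∑ S, (if S ∈ U ∧ S < T then B else 0) := by
          rw [← Finset.sum_filter, Finset.sum_const, nsmul_eq_mul, mul_comm]
          have : U.filter (fun S => S < T) = univ.filter (fun S => S ∈ U ∧ S < T) := by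
            ext S
            simp only [Finset.mem_filter, Finset.mem_univ, true_and]
          rw [this]
        rw [f3]
        apply Finset.sum_le_sum
        intro S _
        split_ifs with c1 c2 c2
        · exact hB S
        · exfalso
          apply c2
          refine ⟨c1.1, lt_of_le_of_ne c1.2.1 ?_⟩
          intro h
          have := c1.2.2
          rw [h] at this
          omega
        · exact hB0
        · exact le_rfl
    calc r T = ∑ R, r' R * ∑ R', p R R' * p R' T := e1
      _ ≤ ∑ R, κ * (if R ≤ T ∧ ρ R + 2 = ρ T then r' R else 0) :=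
          Finset.sum_le_sum (fun R _ => e2 R)
      _ = κ * ∑ R, (if R ≤ T ∧ ρ R + 2 = ρ T then r' R else 0) := by rw [Finset.mul_sum]
      _ ≤ κ * (B * ((U.filter (fun S => S < T)).card : ℝ)) :=
          mul_le_mul_of_nonneg_left e3 hκ0
      _ = κ * B * ((U.filter (fun S => S < T)).card : ℝ) := by ring
  have hcount : (((U ×ˢ U).filter (fun q => q.1 < q.2)).card : ℝ) =
      ∑ T ∈ U, ((U.filter (fun S => S < T)).card : ℝ) := by
    rw [Finset.card_filter, Finset.sum_product_right]
    simp only [Finset.card_filter]
    push_cast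
    rfl
  have hsum : ∑ T ∈ U, r T ≤ κ * B * ∑ T ∈ U, ((U.filter (fun S => S < T)).card : ℝ) := by
    rw [Finset.mul_sum]
    exact Finset.sum_le_sum hres
  rw [Finset.sum_sub_distrib] at hfirst
  rw [hcount]
  linarith

end Abstract

end Pool.Agent.Lib.MP_75c11f_co
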