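import Mathlib
import Pool.Agent.Lib.MP_75c11f_co.Flow

/-!
Supersaturation from an edge weighting whose divergence is an affine function of the rank.
-/

namespace Pool.Agent.Lib.MP_75c11f_co

open Finset

theorem weighted_bound {V : Type} [Fintype V] [DecidableEq V] [PartialOrder V] [DecidableLE V]
    [DecidableLT V] (ρ : V → ℕ) (w : V → V → ℝ) (c B s A W0 : ℝ)
    (hw0 : ∀ S T, 0 ≤ w S T) (hwW : ∀ S T, w S T ≤ W0)
    (hwρ : ∀ S T, w S T ≠ 0 → ρ T = ρ S + 1 ∧ S ≤ T)
    (hdiv : ∀ T, ∑ S, w S T - ∑ R, w T R = 2 * (ρ T : ℝ) + c)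
    (hout : ∀ T, ∑ R, w T R ≤ B) (hin : ∀ T, ∑ S, w S T ≤ B)
    (hs : 0 < s) (hA : 0 < A)
    (U : Finset V) (hpar : ∀ S ∈ U, ∀ T ∈ U, ρ T ≠ ρ S + 1)
    (hU : ∀ T ∈ U, A ≤ ∑ R, w T R)
    (hU2 : ∀ T ∈ U, ∀ R R', w R R' ≠ 0 → w R' T ≠ 0 → A ≤ ∑ X, w R X ∧ A ≤ ∑ X, w R' X)
    (htwo : ∀ R T, (univ.filter (fun R' => w R R' ≠ 0 ∧ w R' T ≠ 0)).card ≤ 2) :
    A * U.card ≤ Fintype.card V * (B / s + s / 2) +
      2 * (W0 / A) ^ 2 * B * (((U ×ˢ U).filter (fun q => q.1 < q.2)).card : ℝ) := by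
  set inn : V → ℝ := fun T => ∑ S, w S T with hinn
  set out : V → ℝ := fun T => ∑ R, w T R with houtd
  set m : V → ℝ := fun T => max (inn T) (out T) with hmd
  set p : V → V → ℝ := fun S T => w S T / m S with hpd
  have hin0 : ∀ T, 0 ≤ inn T := fun T => Finset.sum_nonneg (fun S _ => hw0 S T)
  have hout0 : ∀ T, 0 ≤ out T := fun T => Finset.sum_nonneg (fun S _ => hw0 T S)
  have hm0 : ∀ T, 0 ≤ m T := fun T => (hin0 T).trans (le_max_left _ _)
  have hmo : ∀ T, out T ≤ m T := fun T => le_max_right _ _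
  have hmi : ∀ T, inn T ≤ m T := fun T => le_max_left _ _
  have hwm : ∀ S T, w S T ≤ m S := fun S T =>
    (Finset.single_le_sum (f := fun R => w S R) (fun R _ => hw0 S R) (Finset.mem_univ T)).trans
      (hmo S)
  have hmp : ∀ S T, m S * p S T = w S T := by
    intro S T
    by_cases h : m S = 0
    · have h1 := hwm S T
      have h2 := hw0 S T
      have : w S T = 0 := by linarith
      simp [hpd, this]
    · simp only [hpd]
      field_simp
  have hp0 : ∀ S T, 0 ≤ p S T := fun S T => div_nonneg (hw0 S T) (hm0 S)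
  have hp1 : ∀ S, ∑ T, p S T ≤ 1 := by
    intro S
    simp only [hpd]
    rw [← Finset.sum_div]
    exact div_le_one_of_le₀ (hmo S) (hm0 S)
  have hpw : ∀ S T, p S T ≠ 0 → w S T ≠ 0 := by
    intro S T h h2
    apply h
    simp [hpd, h2]
  have hκ : ∀ T ∈ U, ∀ R, ∑ R', p R R' * p R' T ≤ 2 * (W0 / A) ^ 2 := by
    intro T hT R
    have e1 : ∑ R', p R R' * p R' T =
        ∑ R' ∈ univ.filter (fun R' => w R R' ≠ 0 ∧ w R' T ≠ 0), p R R' * p R' T := by
      symm
      apply Finset.sum_subset (Finset.filter_subset _ _)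
      intro R' _ h
      by_contra hne
      apply h
      exact Finset.mem_filter.mpr ⟨Finset.mem_univ _,
        hpw _ _ (left_ne_zero_of_mul hne), hpw _ _ (right_ne_zero_of_mul hne)⟩
    have e2 : ∀ R' ∈ univ.filter (fun R' => w R R' ≠ 0 ∧ w R' T ≠ 0),
        p R R' * p R' T ≤ (W0 / A) ^ 2 := by
      intro R' h
      have h1 := (Finset.mem_filter.mp h).2
      have h2 := hU2 T hT R R' h1.1 h1.2
      have hW : 0 ≤ W0 := (hw0 R R').trans (hwW R R')
      have a1 : p R R' ≤ W0 / A :=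
        div_le_div₀ hW (hwW R R') hA (h2.1.trans (hmo R))
      have a2 : p R' T ≤ W0 / A :=
        div_le_div₀ hW (hwW R' T) hA (h2.2.trans (hmo R'))
      rw [sq]
      exact mul_le_mul a1 a2 (hp0 _ _) (div_nonneg hW hA.le)
    rw [e1]
    refine (Finset.sum_le_card_nsmul _ _ _ e2).trans ?_
    rw [nsmul_eq_mul]
    apply mul_le_mul_of_nonneg_right _ (sq_nonneg _)
    exact_mod_cast htwo R T
  have main := flow_bound ρ p m (fun T => m T - inn T) hp0 hp1
    (fun S T h => hwρ S T (hpw S T h)) hm0 (fun T => sub_nonneg.mpr (hmi T))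
    (fun T => by simp only [hmp]; simp [hinn]) U hpar (2 * (W0 / A) ^ 2) B (by positivity)
    (fun S => max_le (hin S) (hout S)) hκ
  have hL : A * U.card ≤ ∑ T ∈ U, m T := by
    rw [mul_comm, ← nsmul_eq_mul]
    exact Finset.card_nsmul_le_sum _ _ _ (fun T hT => (hU T hT).trans (hmo T))
  -- total source mass
  set δ : V → ℝ := fun T => inn T - out T with hδ
  have hδ0 : ∑ T, δ T = 0 := by
    simp only [hδ, hinn, houtd, Finset.sum_sub_distrib]
    rw [Finset.sum_comm]
    simp
  have hδρ : ∑ T, δ T * ρ T = ∑ T, out T := by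
    simp only [hδ, hinn, houtd, sub_mul, Finset.sum_sub_distrib, Finset.sum_mul]
    rw [Finset.sum_comm, ← Finset.sum_sub_distrib]
    apply Finset.sum_congr rfl
    intro S _
    rw [← Finset.sum_sub_distrib]
    apply Finset.sum_congr rfl
    intro T _
    by_cases h : w S T = 0
    · simp [h]
    · have := (hwρ S T h).1
      rw [this]
      push_cast
      ring
  have hδ2 : ∑ T, δ T ^ 2 ≤ 2 * (Fintype.card V * B) := by
    have e1 : ∑ T, δ T ^ 2 = 2 * ∑ T, δ T * ρ T + c * ∑ T, δ T := by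
      rw [Finset.mul_sum, Finset.mul_sum, ← Finset.sum_add_distrib]
      apply Finset.sum_congr rfl
      intro T _
      have : δ T = 2 * (ρ T : ℝ) + c := hdiv T
      calc δ T ^ 2 = δ T * δ T := sq _
        _ = δ T * (2 * (ρ T : ℝ) + c) := by rw [← this]
        _ = _ := by ring
    have e2 : ∑ T, out T ≤ Fintype.card V * B := by
      have := Finset.sum_le_card_nsmul univ out B (fun T _ => hout T)
      simpa using this
    rw [e1, hδ0, hδρ]
    linarith
  have hsrc : ∑ T, (m T - inn T) ≤ Fintype.card V * (B / s + s / 2) := by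
    have e1 : ∀ T, m T - inn T ≤ δ T ^ 2 / (2 * s) + s / 2 := by
      intro T
      have a1 : 0 ≤ δ T ^ 2 / (2 * s) + s / 2 := by positivity
      have a2 : - δ T ≤ δ T ^ 2 / (2 * s) + s / 2 := by
        have : δ T ^ 2 / (2 * s) + s / 2 + δ T = (δ T + s) ^ 2 / (2 * s) := by
          field_simp
          ring
        have h2 : 0 ≤ (δ T + s) ^ 2 / (2 * s) := by positivity
        linarith
      simp only [hmd]
      rcases le_total (inn T) (out T) with h | h
      · rw [max_eq_right h]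
        simp only [hδ] at a2 ⊢
        linarith
      · rw [max_eq_left h]
        linarith
    calc ∑ T, (m T - inn T) ≤ ∑ T, (δ T ^ 2 / (2 * s) + s / 2) :=
          Finset.sum_le_sum (fun T _ => e1 T)
      _ = (∑ T, δ T ^ 2) / (2 * s) + Fintype.card V * (s / 2) := by
          rw [Finset.sum_add_distrib, Finset.sum_div]
          simp
      _ ≤ (2 * (Fintype.card V * B)) / (2 * s) + Fintype.card V * (s / 2) := by
          gcongr
      _ = Fintype.card V * (B / s + s / 2) := by
          field_simp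
  linarith

end Pool.Agent.Lib.MP_75c11f_co
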