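import Mathlib
import Pool.Agent.Lib.MP_75c11f_co.Weighted
import Pool.Agent.Lib.MP_75c11f_co.Count

/-!
Supersaturation of comparable pairs in `L(k,k)`.
-/

namespace Pool.Agent.Lib.MP_75c11f_co

open Finset

open Classical in
lemma core (k r : ℕ) (hr : 8 * r ≤ k) (hr4 : 4 ≤ r) (s : ℝ) (hs : 0 < s)
    (U : Finset (L k)) (hpar : ∀ S ∈ U, ∀ T ∈ U, rk T ≠ rk S + 1)
    (hU : ∀ T ∈ U, r ≤ asc r T) :
    2 * (r : ℝ) ^ 3 * U.card ≤ ((2 * k).choose k : ℝ) * ((k : ℝ) ^ 3 / s + s / 2) +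
      2 * ((k : ℝ) ^ 2 / (2 * (r : ℝ) ^ 3)) ^ 2 * (k : ℝ) ^ 3 *
        (((U ×ˢ U).filter (fun q => q.1 < q.2)).card : ℝ) := by
  have hr0 : (4 : ℝ) ≤ r := by exact_mod_cast hr4
  have hA : ∀ x : L k, r ≤ asc r x + 2 → 2 * (r : ℝ) ^ 3 ≤ ∑ y, wt x y := by
    intro x hx
    refine le_trans ?_ (out_ge r hr x)
    have h1 : (r : ℝ) ≤ asc r x + 2 := by exact_mod_cast hx
    have h2 : (r : ℝ) / 2 ≤ asc r x := by linarith
    calc 2 * (r : ℝ) ^ 3 = 4 * (r : ℝ) ^ 2 * (r / 2) := by ring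
      _ ≤ _ := by gcongr
  have h := weighted_bound rk wt (∑ i ∈ range k, (2 * ((i : ℝ) + 1) - 2 * k - 1))
    ((k : ℝ) ^ 3) s (2 * (r : ℝ) ^ 3) ((k : ℝ) ^ 2) wt_nonneg wt_le wt_rk div_eq out_le in_le hs
    (by positivity) U hpar (fun T hT => hA T (by have := hU T hT; omega))
    (fun T hT R R' h1 h2 => by
      have a1 := asc_le r _ _ h1
      have a2 := asc_le r _ _ h2
      have a3 := hU T hT
      exact ⟨hA R (by omega), hA R' (by omega)⟩) two_between
  have hN : (Fintype.card (L k) : ℝ) ≤ ((2 * k).choose k : ℝ) := by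
    exact_mod_cast card_L_le k
  have hpos : 0 ≤ (k : ℝ) ^ 3 / s + s / 2 := by positivity
  have := mul_le_mul_of_nonneg_right hN hpos
  linarith

open Classical in
lemma pairs_le_edges (k : ℕ) (U U' : Finset (L k)) (hsub : U' ⊆ U) :
    ((U' ×ˢ U').filter (fun q => q.1 < q.2)).card ≤
      ((G k).induce (U : Set (L k))).edgeSet.ncard := by
  rw [← Set.ncard_coe_finset]
  have hinj : Set.InjOn (Sym2.map (fun a : (U : Set (L k)) => a.1))
      ((G k).induce (U : Set (L k))).edgeSet :=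
    (Sym2.map.injective Subtype.val_injective).injOn
  rw [← Set.InjOn.ncard_image hinj]
  apply Set.ncard_le_ncard_of_injOn (fun q => s(q.1, q.2))
  · intro q hq
    have h1 := Finset.mem_filter.mp (Finset.mem_coe.mp hq)
    have h2 := Finset.mem_product.mp h1.1
    refine ⟨s(⟨q.1, hsub h2.1⟩, ⟨q.2, hsub h2.2⟩), ?_, by simp⟩
    rw [SimpleGraph.mem_edgeSet]
    show (G k).Adj q.1 q.2
    unfold G
    rw [SimpleGraph.fromRel_adj]
    exact ⟨h1.2.ne, Or.inl (fun i => h1.2.le i)⟩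
  · intro q hq q' hq' h
    have h1 := (Finset.mem_filter.mp (Finset.mem_coe.mp hq)).2
    have h2 := (Finset.mem_filter.mp (Finset.mem_coe.mp hq')).2
    rcases Sym2.eq_iff.mp h with a | a
    · exact Prod.ext a.1 a.2
    · exfalso
      rw [a.1, a.2] at h1
      exact lt_asymm h1 h2

theorem supersaturation : ∃ c₁ c₂ : ℝ, 0 < c₁ ∧ 0 < c₂ ∧ ∃ k₀ : ℕ, ∀ k : ℕ, k₀ ≤ k →
    ∀ U : Finset (L k),
      c₁ * (k : ℝ) ^ (-(3 / 2 : ℝ)) * ((2 * k).choose k : ℝ) ≤ (U.card : ℝ) →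
      c₂ * (k : ℝ) ^ 2 * (U.card : ℝ) ≤
        (((G k).induce (U : Set (L k))).edgeSet.ncard : ℝ) := by
  classical
  have hlim := tendsto_pow_const_mul_const_pow_of_lt_one 3 (r := 81 / 128) (by norm_num)
    (by norm_num)
  have hev := hlim.eventually (gt_mem_nhds (show (0 : ℝ) < 1 by norm_num))
  obtain ⟨r₀, hr₀⟩ := Filter.eventually_atTop.mp hev
  refine ⟨24576, 1 / 2 ^ 37, by norm_num, by norm_num, 8 * (r₀ + 4), ?_⟩
  intro k hk U hU
  set r := k / 8 with hrdef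
  have hr8 : 8 * r ≤ k := by omega
  have hr4 : 4 ≤ r := by omega
  have hr16 : k ≤ 16 * r := by omega
  have hsmall : (r : ℝ) ^ 3 * (81 / 128) ^ r < 1 := hr₀ r (by omega)
  have hk1 : (1 : ℝ) ≤ k := by exact_mod_cast (show 1 ≤ k by omega)
  have hk0 : (0 : ℝ) < k := by linarith
  have hrR : (4 : ℝ) ≤ r := by exact_mod_cast hr4
  have hkr : (k : ℝ) ≤ 16 * r := by exact_mod_cast hr16
  set s : ℝ := (k : ℝ) ^ (3 / 2 : ℝ) with hsdef
  have hs : 0 < s := Real.rpow_pos_of_pos hk0 _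
  have hss : s * s = (k : ℝ) ^ 3 := by
    rw [hsdef, ← Real.rpow_add hk0, show (3 / 2 : ℝ) + 3 / 2 = (3 : ℕ) by norm_num,
      Real.rpow_natCast]
  have hsk : s ≤ (k : ℝ) ^ 2 := by
    rw [hsdef, show (k : ℝ) ^ 2 = (k : ℝ) ^ ((2 : ℕ) : ℝ) by rw [Real.rpow_natCast]]
    apply Real.rpow_le_rpow_of_exponent_le hk1
    norm_num
  set N : ℝ := ((2 * k).choose k : ℝ) with hN
  set u : ℝ := (U.card : ℝ) with hu
  have hu0 : 0 ≤ u := Nat.cast_nonneg _
  have hN0 : 0 ≤ N := Nat.cast_nonneg _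
  have hNu : 24576 * N ≤ u * s := by
    rw [Real.rpow_neg hk0.le, ← hsdef] at hU
    have := mul_le_mul_of_nonneg_right hU hs.le
    have e : 24576 * s⁻¹ * N * s = 24576 * N := by field_simp
    linarith
  -- few atypical elements
  have hbad : ((univ.filter (fun x : L k => asc r x < r)).card : ℝ) ≤ u / 2 := by
    have h1 := bad_count (k := k) r hr8 (by omega)
    have h2 : (4 : ℝ) ^ k ≤ k * N := by
      have := (Nat.four_pow_lt_mul_centralBinom k (by omega)).le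
      rw [Nat.centralBinom_eq_two_mul_choose] at this
      rw [hN]
      exact_mod_cast this
    have h3 : (0 : ℝ) ≤ (81 / 128) ^ r := by positivity
    have h4 : N ≤ u * (k : ℝ) ^ 2 / 24576 := by
      have := mul_le_mul_of_nonneg_left hsk hu0
      linarith
    have h5 : (k : ℝ) ^ 3 ≤ (16 * r) ^ 3 := by gcongr
    calc _ ≤ (4 : ℝ) ^ k * (81 / 128) ^ r := h1
      _ ≤ (k * (u * (k : ℝ) ^ 2 / 24576)) * (81 / 128) ^ r := by
          apply mul_le_mul_of_nonneg_right _ h3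
          exact h2.trans (mul_le_mul_of_nonneg_left h4 hk0.le)
      _ = u / 24576 * ((k : ℝ) ^ 3 * (81 / 128) ^ r) := by ring
      _ ≤ u / 24576 * ((16 * r : ℝ) ^ 3 * (81 / 128) ^ r) := by gcongr
      _ = u / 6 * ((r : ℝ) ^ 3 * (81 / 128) ^ r) := by ring
      _ ≤ u / 6 * 1 := by gcongr
      _ ≤ u / 2 := by linarith
  -- a large parity class of typical elements
  have hex : ∃ U' : Finset (L k), U' ⊆ U ∧ (∀ S ∈ U', ∀ T ∈ U', rk T ≠ rk S + 1) ∧
      (∀ T ∈ U', r ≤ asc r T) ∧ u / 4 ≤ U'.card := by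
    set U0 := U.filter (fun x => r ≤ asc r x ∧ rk x % 2 = 0) with hU0
    set U1 := U.filter (fun x => r ≤ asc r x ∧ rk x % 2 = 1) with hU1
    have hcov : U ⊆ (U0 ∪ U1) ∪ univ.filter (fun x : L k => asc r x < r) := by
      intro x hx
      simp only [hU0, hU1, Finset.mem_union, Finset.mem_filter, Finset.mem_univ, true_and, hx]
      omega
    have hc : U.card ≤ U0.card + U1.card + (univ.filter (fun x : L k => asc r x < r)).card :=
      (Finset.card_le_card hcov).trans ((Finset.card_union_le _ _).trans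
        (Nat.add_le_add_right (Finset.card_union_le _ _) _))
    have hc' : u ≤ U0.card + U1.card +
        ((univ.filter (fun x : L k => asc r x < r)).card : ℝ) := by
      rw [hu]
      exact_mod_cast hc
    by_cases h : u / 4 ≤ U0.card
    · refine ⟨U0, Finset.filter_subset _ _, ?_, ?_, h⟩
      · intro S hS T hT
        have a1 := (Finset.mem_filter.mp hS).2.2
        have a2 := (Finset.mem_filter.mp hT).2.2
        omega
      · intro T hT
        exact (Finset.mem_filter.mp hT).2.1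
    · refine ⟨U1, Finset.filter_subset _ _, ?_, ?_, by linarith [not_le.mp h]⟩
      · intro S hS T hT
        have a1 := (Finset.mem_filter.mp hS).2.2
        have a2 := (Finset.mem_filter.mp hT).2.2
        omega
      · intro T hT
        exact (Finset.mem_filter.mp hT).2.1
  obtain ⟨U', hsub, hpar, htyp, hbig⟩ := hex
  have hcore := core k r hr8 hr4 s hs U' hpar htyp
  have hedge := pairs_le_edges k U U' hsub
  set e' : ℝ := (((U' ×ˢ U').filter (fun q => q.1 < q.2)).card : ℝ) with he'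
  set e : ℝ := (((G k).induce (U : Set (L k))).edgeSet.ncard : ℝ) with he
  have hee : e' ≤ e := by
    rw [he', he]
    exact_mod_cast hedge
  have he0 : 0 ≤ e' := Nat.cast_nonneg _
  have hA : (k : ℝ) ^ 3 / 2048 ≤ 2 * (r : ℝ) ^ 3 := by
    have h5 : (k : ℝ) ^ 3 ≤ (16 * r) ^ 3 := by gcongr
    linarith
  have b1 : (k : ℝ) ^ 3 / 2048 * (u / 4) ≤ 2 * (r : ℝ) ^ 3 * U'.card := by
    gcongr
  have b2 : N * ((k : ℝ) ^ 3 / s + s / 2) ≤ u * (k : ℝ) ^ 3 / 16384 := by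
    have e1 : (k : ℝ) ^ 3 / s = s := by
      rw [← hss]
      field_simp
    rw [e1, ← hss]
    have := mul_le_mul_of_nonneg_right hNu hs.le
    nlinarith
  have b3 : (k : ℝ) ^ 2 / (2 * (r : ℝ) ^ 3) ≤ 2048 / k := by
    rw [div_le_div_iff₀ (by positivity) hk0]
    nlinarith
  have b4 : 2 * ((k : ℝ) ^ 2 / (2 * (r : ℝ) ^ 3)) ^ 2 * (k : ℝ) ^ 3 * e' ≤
      2 * (2048 / k) ^ 2 * (k : ℝ) ^ 3 * e := by
    gcongr
  have b5 : 2 * (2048 / (k : ℝ)) ^ 2 * (k : ℝ) ^ 3 * e = k * (2 ^ 23 * e) := by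
    field_simp
    ring
  have b6 : (k : ℝ) * ((k : ℝ) ^ 2 * u / 16384) ≤ k * (2 ^ 23 * e) := by
    rw [← b5]
    have : (k : ℝ) * ((k : ℝ) ^ 2 * u / 16384) =
        (k : ℝ) ^ 3 / 2048 * (u / 4) - u * (k : ℝ) ^ 3 / 16384 := by ring
    linarith
  have b7 := le_of_mul_le_mul_left b6 hk0
  linarith

end Pool.Agent.Lib.MP_75c11f_co
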